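import Pool.Agent.H21.ASY.Stmts

/-!
# ASY, module CNT
-/

set_option autoImplicit false

namespace Pool.ASY

open Finset MeasureTheory Pool.Agent.H98.ABCR Pool.SHA
open scoped ArithmeticFunction.Moebius

/-- CNT: from FAC and SIV. -/
theorem cnt_thm (h1 : S_FAC) (h2 : S_SIV) : S_CNT := by
  intro T Z d hT hZ hd
  obtain ⟨I, hcard, hI, hMM⟩ := h1 d hd
  have hmain : (3 : ℝ) ^ om d * kap d * Ar T Z =
      ∑ k ∈ I, kap (k.1 * k.2.1 * k.2.2) * Ar T Z := by
    rw [Finset.sum_congr rfl (fun k hk => by rw [(hI k hk).1]), Finset.sum_const, hcard,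
      nsmul_eq_mul]
    push_cast
    ring
  rw [hMM T Z, Nat.cast_sum, hmain, ← Finset.sum_sub_distrib]
  refine (Finset.abs_sum_le_sum_abs _ _).trans ?_
  refine (Finset.sum_le_card_nsmul I _ (4 * Z * (1 + Real.log Z)) ?_).trans ?_
  · intro k hk
    obtain ⟨hd1, c12, c13, c23⟩ := hI k hk
    have hne : k.1 * k.2.1 * k.2.2 ≠ 0 := by rw [hd1]; omega
    have e1 : k.1 ≠ 0 := fun h => hne (by rw [h]; simp)
    have e2 : k.2.1 ≠ 0 := fun h => hne (by rw [h]; simp)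
    have e3 : k.2.2 ≠ 0 := fun h => hne (by rw [h]; simp)
    exact h2 T Z k.1 k.2.1 k.2.2 hT hZ (Nat.pos_of_ne_zero e1) (Nat.pos_of_ne_zero e2)
      (Nat.pos_of_ne_zero e3) c12 c13 c23
  · rw [hcard, nsmul_eq_mul]
    push_cast
    exact le_rfl

end Pool.ASY
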