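import Pool.Agent.H21.ASY.Stmts

/-!
# ASY, module SIV: the sieve estimate
-/

set_option autoImplicit false

namespace Pool.ASY

open Finset MeasureTheory Pool.Agent.H98.ABCR Pool.SHA
open scoped ArithmeticFunction.Moebius

namespace Siv48

theorem tail_le (K : ℕ) (hK : 0 < K) (S : ℝ)
    (hs : HasSum (fun e : ℕ => (μ e : ℝ) * (K.gcd e : ℝ) / (e : ℝ) ^ 2) S) (N : ℕ) (hN : 0 < N) :
    |(∑ e ∈ Icc 1 N, (μ e : ℝ) * (K.gcd e : ℝ) / (e : ℝ) ^ 2) - S| ≤ K / N := by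
  set f : ℕ → ℝ := fun e : ℕ => (μ e : ℝ) * (K.gcd e : ℝ) / (e : ℝ) ^ 2 with hf
  have hf0 : f 0 = 0 := by simp [hf]
  have hbd : ∀ e : ℕ, |f e| ≤ K * ((e : ℝ) ^ 2)⁻¹ := by
    intro e
    rw [hf]
    simp only
    rw [abs_div, abs_mul, div_eq_mul_inv]
    have hμ : |((μ e : ℤ) : ℝ)| ≤ 1 := by
      have := ArithmeticFunction.abs_moebius_le_one (n := e)
      exact_mod_cast this
    have hg : |((K.gcd e : ℕ) : ℝ)| ≤ K := by
      rw [Nat.abs_cast]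
      exact_mod_cast Nat.gcd_le_left e hK
    have hsq : |((e : ℝ) ^ 2)| = (e : ℝ) ^ 2 := abs_of_nonneg (by positivity)
    rw [hsq]
    refine mul_le_mul_of_nonneg_right ?_ (by positivity)
    calc |((μ e : ℤ) : ℝ)| * |((K.gcd e : ℕ) : ℝ)| ≤ 1 * K :=
        mul_le_mul hμ hg (abs_nonneg _) zero_le_one
      _ = K := one_mul _
  have hIcc : ∀ M : ℕ, ∑ e ∈ range (M + 1), f e = ∑ e ∈ Icc 1 M, f e := by
    intro M
    have : range (M + 1) = insert 0 (Icc 1 M) := by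
      ext x
      simp only [mem_range, mem_insert, mem_Icc]
      omega
    rw [this, sum_insert (by simp), hf0, zero_add]
  have htend := hs.tendsto_sum_nat
  have htend1 : Filter.Tendsto (fun n : ℕ => |(∑ e ∈ Icc 1 N, f e) - ∑ e ∈ range n, f e|)
      Filter.atTop (nhds |(∑ e ∈ Icc 1 N, f e) - S|) := by
    exact (tendsto_const_nhds.sub htend).abs
  refine le_of_tendsto htend1 ?_
  filter_upwards [Filter.eventually_ge_atTop (N + 1)] with n hn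
  obtain ⟨M, rfl⟩ : ∃ M, n = M + 1 := ⟨n - 1, by omega⟩
  have hNM : N ≤ M := by omega
  rw [hIcc M]
  have hsplit : ∑ e ∈ Icc 1 M, f e = ∑ e ∈ Icc 1 N, f e + ∑ e ∈ Ioc N M, f e := by
    rw [← sum_union]
    · congr 1
      ext x
      simp only [mem_union, mem_Icc, mem_Ioc]
      omega
    · rw [Finset.disjoint_left]
      intro x hx hx'
      simp only [mem_Icc, mem_Ioc] at hx hx'
      omega
  rw [hsplit]
  have : (∑ e ∈ Icc 1 N, f e) - (∑ e ∈ Icc 1 N, f e + ∑ e ∈ Ioc N M, f e) =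
      -∑ e ∈ Ioc N M, f e := by ring
  rw [this, abs_neg]
  calc |∑ e ∈ Ioc N M, f e| ≤ ∑ e ∈ Ioc N M, |f e| := abs_sum_le_sum_abs _ _
    _ ≤ ∑ e ∈ Ioc N M, (K : ℝ) * ((e : ℝ) ^ 2)⁻¹ := sum_le_sum (fun e _ => hbd e)
    _ = K * ∑ e ∈ Ioc N M, ((e : ℝ) ^ 2)⁻¹ := by rw [mul_sum]
    _ ≤ K * ((N : ℝ)⁻¹ - (M : ℝ)⁻¹) := by
        refine mul_le_mul_of_nonneg_left (sum_Ioc_inv_sq_le_sub (by omega) hNM) (by positivity)
    _ ≤ K * (N : ℝ)⁻¹ := by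
        refine mul_le_mul_of_nonneg_left ?_ (by positivity)
        have : (0 : ℝ) ≤ (M : ℝ)⁻¹ := by positivity
        linarith
    _ = K / N := by rw [div_eq_mul_inv]

theorem gcd_prod (k1 k2 k3 e : ℕ) (c12 : k1.Coprime k2) (c13 : k1.Coprime k3)
    (c23 : k2.Coprime k3) :
    (k1 * k2 * k3).gcd e = k1.gcd e * k2.gcd e * k3.gcd e := by
  have h1 : (k1 * k2).Coprime k3 := Nat.Coprime.mul_left c13 c23
  rw [Nat.gcd_comm, Nat.Coprime.gcd_mul e h1, Nat.Coprime.gcd_mul e c12, Nat.gcd_comm e k1,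
    Nat.gcd_comm e k2, Nat.gcd_comm e k3]

end Siv48

open Siv48

/-- SIV: the sieve estimate. -/
theorem siv_thm (h1 : S_GCM) (h2 : S_LTR) (h3 : S_SCA) (h4 : S_KAP) (h5 : S_CUS) : S_SIV := by
  intro T Z k1 k2 k3 hT hZ p1 p2 p3 c12 c13 c23
  set K : ℕ := k1 * k2 * k3 with hK
  have hKpos : 0 < K := by positivity
  have hKr : (0 : ℝ) < K := by exact_mod_cast hKpos
  set N : ℕ := ⌊Z⌋₊ with hN
  have hNpos : 0 < N := Nat.floor_pos.2 hZ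
  have hNr : (0 : ℝ) < N := by exact_mod_cast hNpos
  have hNZ : (N : ℝ) ≤ Z := Nat.floor_le (by linarith)
  have hZN : Z < N + 1 := Nat.lt_floor_add_one Z
  have hA0 : 0 ≤ Ar T Z := h5.2.2.2.1 T Z
  have hA1 : Ar T Z ≤ Z ^ 2 := h5.2.2.1 T Z
  -- each term
  have hterm : ∀ e ∈ Icc 1 N,
      |(μ e : ℝ) * LC (T / (e : ℝ) ^ 3) (Z / e) (k1 / k1.gcd e) (k2 / k2.gcd e) (k3 / k3.gcd e) -
        Ar T Z / K * ((μ e : ℝ) * (K.gcd e : ℝ) / (e : ℝ) ^ 2)| ≤ 2 * Z * (e : ℝ)⁻¹ := by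
    intro e he
    rw [mem_Icc] at he
    have he0 : 0 < e := he.1
    have her : (0 : ℝ) < e := by exact_mod_cast he0
    have g1 : 0 < k1.gcd e := Nat.gcd_pos_of_pos_left e p1
    have g2 : 0 < k2.gcd e := Nat.gcd_pos_of_pos_left e p2
    have g3 : 0 < k3.gcd e := Nat.gcd_pos_of_pos_left e p3
    have d1 : k1.gcd e ∣ k1 := Nat.gcd_dvd_left k1 e
    have d2 : k2.gcd e ∣ k2 := Nat.gcd_dvd_left k2 e
    have d3 : k3.gcd e ∣ k3 := Nat.gcd_dvd_left k3 e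
    have q1 : 0 < k1 / k1.gcd e := Nat.div_pos (Nat.le_of_dvd p1 d1) g1
    have q2 : 0 < k2 / k2.gcd e := Nat.div_pos (Nat.le_of_dvd p2 d2) g2
    have q3 : 0 < k3 / k3.gcd e := Nat.div_pos (Nat.le_of_dvd p3 d3) g3
    have e12 : (k1 / k1.gcd e).Coprime (k2 / k2.gcd e) :=
      Nat.Coprime.coprime_dvd_left (Nat.div_dvd_of_dvd d1)
        (Nat.Coprime.coprime_dvd_right (Nat.div_dvd_of_dvd d2) c12)
    have e13 : (k1 / k1.gcd e).Coprime (k3 / k3.gcd e) :=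
      Nat.Coprime.coprime_dvd_left (Nat.div_dvd_of_dvd d1)
        (Nat.Coprime.coprime_dvd_right (Nat.div_dvd_of_dvd d3) c13)
    have e23 : (k2 / k2.gcd e).Coprime (k3 / k3.gcd e) :=
      Nat.Coprime.coprime_dvd_left (Nat.div_dvd_of_dvd d2)
        (Nat.Coprime.coprime_dvd_right (Nat.div_dvd_of_dvd d3) c23)
    have hl := h2 (T / (e : ℝ) ^ 3) (Z / e) _ _ _ (by positivity) (by positivity) q1 q2 q3
      e12 e13 e23
    rw [h3.1 T Z e her] at hl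
    have hmainterm : Ar T Z / (e : ℝ) ^ 2 /
        (((k1 / k1.gcd e : ℕ) : ℝ) * ((k2 / k2.gcd e : ℕ) : ℝ) * ((k3 / k3.gcd e : ℕ) : ℝ)) =
        Ar T Z / K * ((K.gcd e : ℝ) / (e : ℝ) ^ 2) := by
      have r1 : ((k1 / k1.gcd e : ℕ) : ℝ) = (k1 : ℝ) / (k1.gcd e : ℝ) := by
        rw [Nat.cast_div d1 (by exact_mod_cast g1.ne')]
      have r2 : ((k2 / k2.gcd e : ℕ) : ℝ) = (k2 : ℝ) / (k2.gcd e : ℝ) := by
        rw [Nat.cast_div d2 (by exact_mod_cast g2.ne')]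
      have r3 : ((k3 / k3.gcd e : ℕ) : ℝ) = (k3 : ℝ) / (k3.gcd e : ℝ) := by
        rw [Nat.cast_div d3 (by exact_mod_cast g3.ne')]
      have rg : ((K.gcd e : ℕ) : ℝ) = (k1.gcd e : ℝ) * (k2.gcd e : ℝ) * (k3.gcd e : ℝ) := by
        rw [hK, gcd_prod k1 k2 k3 e c12 c13 c23]
        push_cast
        ring
      have rK : (K : ℝ) = (k1 : ℝ) * k2 * k3 := by rw [hK]; push_cast; ring
      rw [r1, r2, r3, rg, rK]
      have n1 : ((k1 : ℝ)) ≠ 0 := by exact_mod_cast p1.ne'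
      have n2 : ((k2 : ℝ)) ≠ 0 := by exact_mod_cast p2.ne'
      have n3 : ((k3 : ℝ)) ≠ 0 := by exact_mod_cast p3.ne'
      have m1 : ((k1.gcd e : ℕ) : ℝ) ≠ 0 := by exact_mod_cast g1.ne'
      have m2 : ((k2.gcd e : ℕ) : ℝ) ≠ 0 := by exact_mod_cast g2.ne'
      have m3 : ((k3.gcd e : ℕ) : ℝ) ≠ 0 := by exact_mod_cast g3.ne'
      field_simp
    rw [hmainterm] at hl
    have hμ : |((μ e : ℤ) : ℝ)| ≤ 1 := by
      have := ArithmeticFunction.abs_moebius_le_one (n := e)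
      exact_mod_cast this
    have heq : (μ e : ℝ) * LC (T / (e : ℝ) ^ 3) (Z / e) (k1 / k1.gcd e) (k2 / k2.gcd e)
        (k3 / k3.gcd e) - Ar T Z / K * ((μ e : ℝ) * (K.gcd e : ℝ) / (e : ℝ) ^ 2) =
        (μ e : ℝ) * ((LC (T / (e : ℝ) ^ 3) (Z / e) (k1 / k1.gcd e) (k2 / k2.gcd e)
          (k3 / k3.gcd e) : ℝ) - Ar T Z / K * ((K.gcd e : ℝ) / (e : ℝ) ^ 2)) := by ring
    rw [heq, abs_mul]
    calc |((μ e : ℤ) : ℝ)| * _ ≤ 1 * (2 * (Z / e)) :=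
          mul_le_mul hμ hl (abs_nonneg _) zero_le_one
      _ = 2 * Z * (e : ℝ)⁻¹ := by rw [one_mul, div_eq_mul_inv]; ring
  have hsum : |(MK T Z k1 k2 k3 : ℝ) -
      Ar T Z / K * ∑ e ∈ Icc 1 N, (μ e : ℝ) * (K.gcd e : ℝ) / (e : ℝ) ^ 2| ≤
      2 * Z * (1 + Real.log Z) := by
    rw [h1 T Z k1 k2 k3 (by linarith) p1 p2 p3, mul_sum, ← sum_sub_distrib]
    refine (abs_sum_le_sum_abs _ _).trans ((sum_le_sum hterm).trans ?_)
    rw [← mul_sum]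
    refine mul_le_mul_of_nonneg_left ?_ (by linarith)
    have hh := harmonic_floor_le_one_add_log Z hZ
    rw [harmonic_eq_sum_Icc] at hh
    push_cast at hh
    exact hh
  have htail := tail_le K hKpos (K * kap K) (h4.2.2.2.2 K hKpos) N hNpos
  have htail2 : |Ar T Z / K * (∑ e ∈ Icc 1 N, (μ e : ℝ) * (K.gcd e : ℝ) / (e : ℝ) ^ 2) -
      kap K * Ar T Z| ≤ 2 * Z := by
    have heq : Ar T Z / K * (∑ e ∈ Icc 1 N, (μ e : ℝ) * (K.gcd e : ℝ) / (e : ℝ) ^ 2) -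
        kap K * Ar T Z = Ar T Z / K *
        ((∑ e ∈ Icc 1 N, (μ e : ℝ) * (K.gcd e : ℝ) / (e : ℝ) ^ 2) - K * kap K) := by
      field_simp
    rw [heq, abs_mul, abs_of_nonneg (div_nonneg hA0 hKr.le)]
    calc Ar T Z / K * _ ≤ Ar T Z / K * (K / N) :=
          mul_le_mul_of_nonneg_left htail (div_nonneg hA0 hKr.le)
      _ = Ar T Z / N := by field_simp
      _ ≤ Z ^ 2 / N := by gcongr
      _ ≤ 2 * Z := by
          rw [div_le_iff₀ hNr]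
          have h1N : (1 : ℝ) ≤ N := by exact_mod_cast hNpos
          nlinarith
  have hlog : 0 ≤ Real.log Z := Real.log_nonneg hZ
  calc |(MK T Z k1 k2 k3 : ℝ) - kap K * Ar T Z| ≤
      |(MK T Z k1 k2 k3 : ℝ) -
        Ar T Z / K * ∑ e ∈ Icc 1 N, (μ e : ℝ) * (K.gcd e : ℝ) / (e : ℝ) ^ 2| +
      |Ar T Z / K * (∑ e ∈ Icc 1 N, (μ e : ℝ) * (K.gcd e : ℝ) / (e : ℝ) ^ 2) -
        kap K * Ar T Z| := abs_sub_le _ _ _
    _ ≤ 2 * Z * (1 + Real.log Z) + 2 * Z := add_le_add hsum htail2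
    _ ≤ 4 * Z * (1 + Real.log Z) := by nlinarith

end Pool.ASY
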